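import Pool.Agent.R237.PR.Tilt

set_option autoImplicit false

namespace Pool.Agent.R237.PR

open Polynomial

theorem aeval_poly (n : ℕ) (a : ℕ → ℝ) (z : ℂ) :
    aeval z (poly n a) = ∑ k ∈ Finset.range (n + 1), (a k : ℂ) * z ^ k := by
  rw [poly, map_sum]
  apply Finset.sum_congr rfl
  intro k _
  simp

theorem poly_ne_zero {n : ℕ} {c : ℕ → ℝ} {m : ℕ} (hm : m ≤ n) (hcm : 0 < c m) : poly n c ≠ 0 := by
  intro h
  have := coeff_poly n c m
  rw [h, coeff_zero, if_pos hm] at this
  linarith

/-- order two total positivity for real-rooted polynomials -/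
theorem pf2_poly (n : ℕ) (c : ℕ → ℝ) (hc : ∀ k ≤ n, 0 ≤ c k) (hr : RealRooted (poly n c))
    (i j : ℕ) (hij : i ≤ j) (hj : j + 1 ≤ n) : c i * c (j + 1) ≤ c (i + 1) * c j := by
  have hcf : ∀ k, k ≤ n → c k = (poly n c).coeff k := by
    intro k hk
    rw [coeff_poly, if_pos hk]
  rcases hr with h | hz
  · rw [hcf i (by omega), hcf (i + 1) (by omega), h]
    simp
  · by_cases hP0 : poly n c = 0
    · rw [hcf i (by omega), hcf (i + 1) (by omega), hP0]
      simp
    · have hcoef : ∀ k, 0 ≤ (poly n c).coeff k := by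
        intro k
        rw [coeff_poly]
        split_ifs with h
        · exact hc k h
        · exact le_rfl
      have hl : 0 < (poly n c).leadingCoeff :=
        lt_of_le_of_ne (hcoef _) (Ne.symm (leadingCoeff_ne_zero.mpr hP0))
      obtain ⟨s, hs⟩ := fac _ (poly n c) rfl hP0 hz
      change poly n c = C (poly n c).leadingCoeff * Pr s at hs
      set l := (poly n c).leadingCoeff with hldef
      have hsr : ∀ r ∈ s, 0 ≤ r := by
        intro r hr
        by_contra hneg
        push Not at hneg
        have h2 : (Pr s).eval (-r) = 0 := by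
          rw [Pr, eval_list_prod]
          apply List.prod_eq_zero
          rw [List.mem_map]
          exact ⟨X + C r, List.mem_map.mpr ⟨r, hr, rfl⟩, by simp⟩
        have h3 : (poly n c).eval (-r) = 0 := by
          rw [hs, eval_mul, h2, mul_zero]
        rw [poly, sum_S0] at h3
        -- all terms are nonnegative, so all vanish
        have h4 := (Finset.sum_eq_zero_iff_of_nonneg (by
          intro k hk
          have hk' : k ≤ n := by simpa [Nat.lt_succ_iff] using hk
          exact mul_nonneg (hc k hk') (pow_nonneg (by linarith) k))).mp h3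
        apply hP0
        ext k
        rw [coeff_poly, coeff_zero]
        split_ifs with hk
        · have h5 := h4 k (by simpa [Nat.lt_succ_iff] using hk)
          have h6 : (-r) ^ k ≠ 0 := pow_ne_zero k (by linarith)
          exact (mul_eq_zero.mp h5).resolve_right h6
        · rfl
      have hL := (pf2 s hsr).2 i j hij
      have hcc : ∀ k, (poly n c).coeff k = l * (Pr s).coeff k := by
        intro k
        rw [hs, coeff_C_mul]
      rw [hcf i (by omega), hcf (j + 1) hj, hcf (i + 1) (by omega), hcf j (by omega), hcc, hcc, hcc,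
        hcc]
      nlinarith [mul_le_mul_of_nonneg_left hL (mul_pos hl hl).le]

/-- geometric decay from local ratios -/
theorem decay (n m : ℕ) (c : ℕ → ℝ) (hc : ∀ k ≤ n, 0 ≤ c k)
    (hL : ∀ i j, i ≤ j → j + 1 ≤ n → c i * c (j + 1) ≤ c (i + 1) * c j) {x ρ : ℝ} (hx : 0 < x)
    (h0 : 0 < ρ) (hm : m ≤ n) (hcm : 0 < c m) (hup : m + 1 ≤ n → c (m + 1) * x ≤ ρ * c m)
    (hdn : ∀ m', m = m' + 1 → c m' ≤ ρ * (c m * x)) :
    ∀ k, k ≤ n → c k * x ^ k ≤ ρ ^ ((k : ℤ) - m).natAbs * (c m * x ^ m) := by
  have up : ∀ d, m + d ≤ n → c (m + d) * x ^ d ≤ ρ ^ d * c m := by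
    intro d
    induction d with
    | zero => intro _; simp
    | succ d ih =>
      intro hd
      have ih' := ih (by omega)
      have h1 := hL m (m + d) (by omega) (by omega)
      have h2 := hup (by omega)
      have h3 : c m * (c (m + (d + 1)) * x ^ (d + 1)) ≤ c m * (ρ ^ (d + 1) * c m) := by
        calc c m * (c (m + (d + 1)) * x ^ (d + 1)) = (c m * c (m + d + 1)) * x ^ (d + 1) := by
              rw [← add_assoc]; ring
          _ ≤ (c (m + 1) * c (m + d)) * x ^ (d + 1) :=
              mul_le_mul_of_nonneg_right h1 (by positivity)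
          _ = (c (m + 1) * x) * (c (m + d) * x ^ d) := by rw [pow_succ]; ring
          _ ≤ (ρ * c m) * (ρ ^ d * c m) := by
              apply mul_le_mul h2 ih' _ (by positivity)
              exact mul_nonneg (hc _ (by omega)) (by positivity)
          _ = c m * (ρ ^ (d + 1) * c m) := by rw [pow_succ]; ring
      exact le_of_mul_le_mul_left h3 hcm
  have dn : ∀ d k, m = k + d → c k ≤ ρ ^ d * (c m * x ^ d) := by
    intro d
    induction d with
    | zero =>
      intro k hk
      have : k = m := by omega
      subst this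
      simp
    | succ d ih =>
      intro k hk
      have ih' := ih (k + 1) (by omega)
      have h1 := hL k (k + d) (by omega) (by omega)
      have h2 := hdn (k + d) (by omega)
      have hkm : k + d + 1 = m := by omega
      rw [hkm] at h1
      have h3 : c m * c k ≤ c m * (ρ ^ (d + 1) * (c m * x ^ (d + 1))) := by
        calc c m * c k = c k * c m := mul_comm _ _
          _ ≤ c (k + 1) * c (k + d) := h1
          _ ≤ (ρ ^ d * (c m * x ^ d)) * (ρ * (c m * x)) := by
              apply mul_le_mul ih' h2 (hc _ (by omega)) (by positivity)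
          _ = c m * (ρ ^ (d + 1) * (c m * x ^ (d + 1))) := by rw [pow_succ, pow_succ]; ring
      exact le_of_mul_le_mul_left h3 hcm
  intro k hk
  rcases Nat.le_total m k with h | h
  · obtain ⟨d, rfl⟩ := Nat.exists_eq_add_of_le h
    have h1 := up d hk
    have h2 : (((m + d : ℕ) : ℤ) - m).natAbs = d := by
      have : (((m + d : ℕ) : ℤ) - m) = (d : ℤ) := by push_cast; ring
      rw [this, Int.natAbs_natCast]
    rw [h2]
    calc c (m + d) * x ^ (m + d) = (c (m + d) * x ^ d) * x ^ m := by rw [pow_add]; ring
      _ ≤ (ρ ^ d * c m) * x ^ m := mul_le_mul_of_nonneg_right h1 (by positivity)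
      _ = ρ ^ d * (c m * x ^ m) := by ring
  · obtain ⟨d, hd⟩ := Nat.exists_eq_add_of_le h
    have h1 := dn d k hd
    have h2 : ((k : ℤ) - m).natAbs = d := by
      have : ((k : ℤ) - m) = -(d : ℤ) := by rw [hd]; push_cast; ring
      rw [this, Int.natAbs_neg, Int.natAbs_natCast]
    rw [h2]
    calc c k * x ^ k ≤ (ρ ^ d * (c m * x ^ d)) * x ^ k :=
          mul_le_mul_of_nonneg_right h1 (by positivity)
      _ = ρ ^ d * (c m * x ^ m) := by
          have hpw : x ^ m = x ^ k * x ^ d := by rw [hd, pow_add]
          rw [hpw]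
          ring

/-- `s (1+x)^n` is real-rooted. -/
theorem rr_binom (n : ℕ) {s : ℝ} (hs : 0 < s) :
    AllZerosReal (poly n (fun k => s * (n.choose k : ℝ))) := by
  intro z hz
  rw [aeval_poly] at hz
  have h : ∑ k ∈ Finset.range (n + 1), ((s * (n.choose k : ℝ) : ℝ) : ℂ) * z ^ k =
      (s : ℂ) * (z + 1) ^ n := by
    rw [add_pow, Finset.mul_sum]
    apply Finset.sum_congr rfl
    intro k _
    push_cast
    simp
    ring
  rw [h] at hz
  have hs' : (s : ℂ) ≠ 0 := by exact_mod_cast hs.ne'
  have h1 := (mul_eq_zero.mp hz).resolve_left hs'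
  have h2 : z + 1 = 0 := by
    by_contra hne
    exact pow_ne_zero n hne h1
  have h3 : z = -1 := by linear_combination h2
  rw [h3]
  simp

end Pool.Agent.R237.PR
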