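import Mathlib

set_option autoImplicit false

namespace Pool.Agent.R237.PR

open Polynomial

/-- The polynomial `a 0 + a 1 x + … + a n x^n`. -/
noncomputable def poly (n : ℕ) (a : ℕ → ℝ) : ℝ[X] := ∑ k ∈ Finset.range (n + 1), C (a k) * X ^ k

/-- All complex zeros of `p` are real (the zero polynomial does not have this property). -/
def AllZerosReal (p : ℝ[X]) : Prop := ∀ z : ℂ, aeval z p = 0 → z.im = 0

/-- `p` is real-rooted: all complex zeros are real, or `p = 0`. -/
def RealRooted (p : ℝ[X]) : Prop := p = 0 ∨ AllZerosReal p

/-- `F` preserves real-rootedness: for every real-rooted polynomial with strictly positive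
coefficients `a 0, …, a n`, the polynomial with coefficients `F (a 0), …, F (a n)` is
real-rooted. -/
def Preserves (F : ℝ → ℝ) : Prop :=
  ∀ (n : ℕ) (a : ℕ → ℝ), (∀ k ≤ n, 0 < a k) → RealRooted (poly n a) →
    RealRooted (poly n (fun k => F (a k)))

/-- The property of MP_f91407: for every polynomial with nonnegative coefficients `a 0, …, a n`
all of whose complex zeros are real, all complex zeros of the polynomial with coefficients
`F (a 0), …, F (a n)` are real. -/
def PreservesNonneg (F : ℝ → ℝ) : Prop :=
  ∀ (n : ℕ) (a : ℕ → ℝ), (∀ k ≤ n, 0 ≤ a k) → AllZerosReal (poly n a) →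
    AllZerosReal (poly n (fun k => F (a k)))

end Pool.Agent.R237.PR
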