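import Mathlib

set_option autoImplicit false

namespace Pool.Agent.R237.PR

open Polynomial

theorem fac : ∀ (d : ℕ) (P : ℝ[X]), P.natDegree = d → P ≠ 0 →
    (∀ z : ℂ, aeval z P = 0 → z.im = 0) →
    ∃ s : List ℝ, P = C P.leadingCoeff * (s.map (fun r => X + C r)).prod := by
  intro d
  induction d with
  | zero =>
    intro P hd h0 _
    refine ⟨[], ?_⟩
    have h1 := eq_C_of_natDegree_eq_zero hd
    rw [List.map_nil, List.prod_nil, mul_one]
    have h2 : P.leadingCoeff = P.coeff 0 := by rw [leadingCoeff, hd]
    rw [h2]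
    exact h1
  | succ d ih =>
    intro P hd h0 hz
    have hdeg : 0 < (P.map (algebraMap ℝ ℂ)).degree := by
      rw [degree_map]
      exact natDegree_pos_iff_degree_pos.mp (by omega)
    obtain ⟨z, hzr⟩ := Complex.exists_root hdeg
    have hz1 : aeval z P = 0 := by
      rw [IsRoot, eval_map_algebraMap] at hzr
      exact hzr
    have hzim := hz z hz1
    have hzre : z = ((z.re : ℝ) : ℂ) := by
      apply Complex.ext
      · simp
      · simp [hzim]
    have hroot : P.IsRoot z.re := by
      rw [hzre] at hz1
      have h2 : aeval ((z.re : ℝ) : ℂ) P = ((P.eval z.re : ℝ) : ℂ) := by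
        have := aeval_algebraMap_apply ℂ z.re P
        simpa using this
      rw [h2] at hz1
      exact_mod_cast hz1
    obtain ⟨Q, hQ⟩ := dvd_iff_isRoot.mpr hroot
    have hQ0 : Q ≠ 0 := by
      rintro rfl
      exact h0 (by rw [hQ, mul_zero])
    have hQd : Q.natDegree = d := by
      have h3 := natDegree_mul (X_sub_C_ne_zero z.re) hQ0
      rw [← hQ, hd, natDegree_X_sub_C] at h3
      omega
    obtain ⟨s, hs⟩ := ih Q hQd hQ0 (by
      intro w hw
      apply hz
      rw [hQ, map_mul, hw, mul_zero])
    refine ⟨(-z.re) :: s, ?_⟩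
    have hl : P.leadingCoeff = Q.leadingCoeff := by
      rw [hQ, leadingCoeff_mul, leadingCoeff_X_sub_C, one_mul]
    rw [hl, List.map_cons, List.prod_cons]
    calc P = (X - C z.re) * Q := hQ
      _ = (X - C z.re) * (C Q.leadingCoeff * (s.map (fun r => X + C r)).prod) := by rw [← hs]
      _ = _ := by
        rw [C_neg]
        ring

/-- product of the factors `X + r` -/
noncomputable def Pr (s : List ℝ) : ℝ[X] := (s.map (fun r => X + C r)).prod

theorem Pr_cons (r : ℝ) (s : List ℝ) : Pr (r :: s) = (X + C r) * Pr s := by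
  simp [Pr]

theorem Pr_nil : Pr [] = 1 := by simp [Pr]

theorem eval_Pr_pos (s : List ℝ) (hs : ∀ r ∈ s, 0 ≤ r) {x : ℝ} (hx : 0 < x) :
    0 < (Pr s).eval x := by
  induction s with
  | nil => simp [Pr_nil]
  | cons r s ih =>
    rw [Pr_cons, eval_mul]
    have h1 : 0 < (X + C r : ℝ[X]).eval x := by
      have := hs r (by simp)
      simp
      linarith
    exact mul_pos h1 (ih fun r' hr' => hs r' (by simp [hr']))

/-- The tilt inequality. -/
theorem tilt (s : List ℝ) (hs : ∀ r ∈ s, 0 ≤ r) {x : ℝ} (hx : 0 < x) (hx1 : x ≤ 1) :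
    (derivative (Pr s)).eval 1 / (Pr s).eval 1 ≤
      x * (derivative (Pr s)).eval x / (Pr s).eval x +
      ((x ^ 2 * (derivative (derivative (Pr s))).eval x + x * (derivative (Pr s)).eval x) /
        (Pr s).eval x - (x * (derivative (Pr s)).eval x / (Pr s).eval x) ^ 2) * (1 / x - 1) := by
  induction s with
  | nil => simp [Pr_nil]
  | cons r s ih =>
    have ih' := ih fun r' hr' => hs r' (by simp [hr'])
    have hr : 0 ≤ r := hs r (by simp)
    have hp1 := eval_Pr_pos s (fun r' hr' => hs r' (by simp [hr'])) (x := 1) one_pos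
    have hpx := eval_Pr_pos s (fun r' hr' => hs r' (by simp [hr'])) hx
    have hd : derivative (Pr (r :: s)) = Pr s + (X + C r) * derivative (Pr s) := by
      rw [Pr_cons, derivative_mul]
      simp
    have hdd : derivative (derivative (Pr (r :: s))) =
        2 * derivative (Pr s) + (X + C r) * derivative (derivative (Pr s)) := by
      rw [hd, derivative_add, derivative_mul]
      simp
      ring
    rw [hdd, hd, Pr_cons]
    simp only [eval_add, eval_mul, eval_X, eval_C, eval_ofNat]
    set a := (Pr s).eval x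
    set b := (derivative (Pr s)).eval x
    set c := (derivative (derivative (Pr s))).eval x
    set a1 := (Pr s).eval 1
    set b1 := (derivative (Pr s)).eval 1
    have hxr : 0 < x + r := by linarith
    have h1r : 0 < 1 + r := by linarith
    have e1 : (a1 + (1 + r) * b1) / ((1 + r) * a1) = b1 / a1 + 1 / (1 + r) := by
      field_simp
      ring
    have e2 : x * (a + (x + r) * b) / ((x + r) * a) = x * b / a + x / (x + r) := by
      field_simp
      ring
    have e3 : (x ^ 2 * (2 * b + (x + r) * c) + x * (a + (x + r) * b)) / ((x + r) * a) =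
        (x ^ 2 * c + x * b) / a + 2 * x * (x * b / a) / (x + r) + x / (x + r) := by
      field_simp
      ring
    rw [e1, e2, e3]
    have e4 : (x ^ 2 * c + x * b) / a + 2 * x * (x * b / a) / (x + r) + x / (x + r) -
        (x * b / a + x / (x + r)) ^ 2 = ((x ^ 2 * c + x * b) / a - (x * b / a) ^ 2) +
        x * r / (x + r) ^ 2 := by
      field_simp
      ring
    rw [e4]
    have e5 : 1 / (1 + r) ≤ x / (x + r) + x * r / (x + r) ^ 2 * (1 / x - 1) := by
      have e6 : x / (x + r) + x * r / (x + r) ^ 2 * (1 / x - 1) - 1 / (1 + r) =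
          r * (1 - x) ^ 2 / ((1 + r) * (x + r) ^ 2) := by
        field_simp
        ring
      have e7 : 0 ≤ r * (1 - x) ^ 2 / ((1 + r) * (x + r) ^ 2) := by positivity
      linarith
    have e8 : (((x ^ 2 * c + x * b) / a - (x * b / a) ^ 2) + x * r / (x + r) ^ 2) * (1 / x - 1) =
        ((x ^ 2 * c + x * b) / a - (x * b / a) ^ 2) * (1 / x - 1) +
        x * r / (x + r) ^ 2 * (1 / x - 1) := by ring
    rw [e8]
    linarith

/-- Total positivity of order two of the coefficients. -/
theorem pf2 (s : List ℝ) (hs : ∀ r ∈ s, 0 ≤ r) :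
    (∀ i, 0 ≤ (Pr s).coeff i) ∧
      ∀ i j, i ≤ j → (Pr s).coeff i * (Pr s).coeff (j + 1) ≤ (Pr s).coeff (i + 1) * (Pr s).coeff j := by
  induction s with
  | nil =>
    constructor
    · intro i
      rw [Pr_nil, coeff_one]
      split_ifs <;> norm_num
    · intro i j hij
      rw [Pr_nil]
      have h1 : (1 : ℝ[X]).coeff (j + 1) = 0 := by rw [coeff_one]; simp
      have h2 : (1 : ℝ[X]).coeff (i + 1) = 0 := by rw [coeff_one]; simp
      rw [h1, h2]
      simp
  | cons r s ih =>
    obtain ⟨h0, hL⟩ := ih fun r' hr' => hs r' (by simp [hr'])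
    have hr : 0 ≤ r := hs r (by simp)
    have hc0 : (Pr (r :: s)).coeff 0 = r * (Pr s).coeff 0 := by
      rw [Pr_cons, add_mul, coeff_add, coeff_C_mul]
      simp
    have hcs : ∀ i, (Pr (r :: s)).coeff (i + 1) = r * (Pr s).coeff (i + 1) + (Pr s).coeff i := by
      intro i
      rw [Pr_cons, add_mul, coeff_add, coeff_C_mul, coeff_X_mul]
      ring
    constructor
    · intro i
      cases i with
      | zero => rw [hc0]; exact mul_nonneg hr (h0 0)
      | succ i =>
        rw [hcs]
        exact add_nonneg (mul_nonneg hr (h0 _)) (h0 _)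
    · intro i j hij
      cases i with
      | zero =>
        rw [hc0, hcs]
        cases j with
        | zero =>
          rw [hc0, hcs]
          nlinarith [h0 0, h0 1, mul_nonneg hr (h0 0)]
        | succ j =>
          rw [hcs, hcs]
          have e1 := hL 0 (j + 1) (by omega)
          have e2 := hL 0 j (by omega)
          have e3 : 0 ≤ (Pr s).coeff (0 + 1) * (Pr s).coeff j := mul_nonneg (h0 _) (h0 _)
          have e4 : 0 ≤ (Pr s).coeff 0 * (Pr s).coeff j := mul_nonneg (h0 _) (h0 _)
          have e5 := mul_le_mul_of_nonneg_left e1 (mul_nonneg hr hr)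
          have e6 := mul_nonneg hr e3
          nlinarith
      | succ i =>
        obtain ⟨j, rfl⟩ : ∃ j', j = j' + 1 := ⟨j - 1, by omega⟩
        rw [hcs, hcs, hcs, hcs]
        have e1 := hL (i + 1) (j + 1) hij
        have e2 := hL i j (by omega)
        have e3 := hL i (j + 1) (by omega)
        rcases Nat.lt_or_ge i j with hlt | hge
        · have e4 := hL (i + 1) j hlt
          have e5 := mul_le_mul_of_nonneg_left e1 (mul_nonneg hr hr)
          have e6 := mul_le_mul_of_nonneg_left (e3.trans e4) hr
          nlinarith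
        · have hij2 : i = j := by omega
          subst hij2
          have e5 := mul_le_mul_of_nonneg_left e1 (mul_nonneg hr hr)
          nlinarith

end Pool.Agent.R237.PR
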