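import Pool.Agent.R237.PR.TT

set_option autoImplicit false

namespace Pool.Agent.R237.PR

open Polynomial

theorem key {F : ℝ → ℝ} (hF : Preserves F) (h0 : ∀ t, 0 < t → 0 ≤ F t) {a x ρ : ℝ} (ha : 0 < a)
    (hFa : 0 < F a) (hx : 0 < x) (hx1 : x ≤ 1) (hρ : 0 < ρ) (hρ1 : ρ < 1) (n m : ℕ)
    (hmn : m + 1 ≤ n)
    (hup : F (a * ((n : ℝ) - m) / (m + 1)) * x ≤ ρ * F a)
    (hdn : 1 ≤ m → F (a * m / ((n : ℝ) - m + 1)) ≤ ρ * (F a * x)) :
    (n : ℝ) / 2 - m ≤ (1 + SS ρ) / 2 + SS ρ * (1 / x - 1) := by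
  have hCm : (0 : ℝ) < (n.choose m : ℝ) := by exact_mod_cast Nat.choose_pos (by omega)
  set s : ℝ := a / (n.choose m : ℝ) with hs
  have hs0 : 0 < s := by positivity
  have hpos : ∀ k ≤ n, 0 < s * (n.choose k : ℝ) := by
    intro k hk
    have : (0 : ℝ) < (n.choose k : ℝ) := by exact_mod_cast Nat.choose_pos hk
    positivity
  have hR := hF n (fun k => s * (n.choose k : ℝ)) hpos (Or.inr (rr_binom n hs0))
  have hc : ∀ k ≤ n, 0 ≤ F (s * (n.choose k : ℝ)) := fun k hk => h0 _ (hpos k hk)
  have bm : s * (n.choose m : ℝ) = a := by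
    rw [hs]
    field_simp
  have hcm : 0 < F (s * (n.choose m : ℝ)) := by rw [bm]; exact hFa
  have hL := pf2_poly n (fun k => F (s * (n.choose k : ℝ))) hc hR
  have hz : ∀ z : ℂ, aeval z (poly n (fun k => F (s * (n.choose k : ℝ)))) = 0 → z.im = 0 := by
    rcases hR with h | h
    · exact absurd h (poly_ne_zero (m := m) (by omega) hcm)
    · exact h
  have hmn' : (m : ℝ) + 1 ≤ n := by exact_mod_cast hmn
  have hup' : m + 1 ≤ n → F (s * (n.choose (m + 1) : ℝ)) * x ≤ ρ * F (s * (n.choose m : ℝ)) := by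
    intro _
    rw [bm]
    have e : (n.choose (m + 1) : ℝ) * (m + 1) = (n.choose m : ℝ) * ((n : ℝ) - m) := by
      have := Nat.choose_succ_right_eq n m
      have h2 : (((n.choose (m + 1) * (m + 1) : ℕ)) : ℝ) = ((n.choose m * (n - m) : ℕ) : ℝ) := by
        rw [this]
      push_cast [Nat.cast_sub (by omega : m ≤ n)] at h2
      exact h2
    have e2 : s * (n.choose (m + 1) : ℝ) = a * ((n : ℝ) - m) / (m + 1) := by
      rw [eq_div_iff (by positivity), mul_assoc, e, ← mul_assoc, bm]
    rw [e2]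
    exact hup
  have hdn' : ∀ m', m = m' + 1 → F (s * (n.choose m' : ℝ)) ≤ ρ * (F (s * (n.choose m : ℝ)) * x) := by
    intro m' hm'
    rw [bm]
    have e : (n.choose m : ℝ) * m = (n.choose m' : ℝ) * ((n : ℝ) - m + 1) := by
      have := Nat.choose_succ_right_eq n m'
      rw [← hm'] at this
      have h2 : (((n.choose m * (m' + 1) : ℕ)) : ℝ) = ((n.choose m' * (n - m') : ℕ) : ℝ) := by
        rw [← hm']
        rw [this]
      have h3 : m' ≤ n := by omega
      push_cast [Nat.cast_sub h3] at h2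
      have h4 : (m : ℝ) = m' + 1 := by rw [hm']; push_cast; ring
      rw [h4, h2]
      ring
    have hd : 0 < (n : ℝ) - m + 1 := by linarith
    have e2 : s * (n.choose m' : ℝ) = a * m / ((n : ℝ) - m + 1) := by
      rw [eq_div_iff hd.ne', mul_assoc, ← e, ← mul_assoc, bm]
    rw [e2]
    exact hdn (by omega)
  have hw := decay n m (fun k => F (s * (n.choose k : ℝ))) hc hL hx hρ (by omega) hcm hup' hdn'
  refine main_ineq n m (fun k => F (s * (n.choose k : ℝ))) hc ?_ hz hx hx1 hρ hρ1 (by omega) hcm hw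
  intro k hk
  rw [Nat.choose_symm hk]

theorem pos_all {F : ℝ → ℝ} (hF : Preserves F) (h0 : ∀ t, 0 < t → 0 ≤ F t) {t1 : ℝ} (ht1 : 0 < t1)
    (hFt1 : 0 < F t1) : ∀ t, 0 < t → 0 < F t := by
  by_contra hcon
  push Not at hcon
  obtain ⟨t0, ht0, hFt0⟩ := hcon
  have hFt0' : F t0 = 0 := le_antisymm hFt0 (h0 t0 ht0)
  set S : Set ℝ := {t | 0 < t ∧ F t = 0} with hS
  have hbd : BddAbove S := by
    refine ⟨t1, fun t ht => ?_⟩
    by_contra hlt
    push Not at hlt
    have := mono hF h0 ht1 hlt.le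
    rw [ht.2] at this
    linarith
  have hne : S.Nonempty := ⟨t0, ht0, hFt0'⟩
  set c0 := sSup S with hc0
  have hc0pos : 0 < c0 := lt_of_lt_of_le ht0 (le_csSup hbd ⟨ht0, hFt0'⟩)
  have habove : ∀ t, c0 < t → 0 < F t := by
    intro t ht
    have ht' : 0 < t := hc0pos.trans ht
    rcases eq_or_lt_of_le (h0 t ht') with h | h
    · exfalso
      have := le_csSup hbd (show t ∈ S from ⟨ht', h.symm⟩)
      linarith
    · exact h
  have hbelow : ∀ t, 0 < t → t < c0 → F t = 0 := by
    intro t ht htc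
    obtain ⟨u, hu, htu⟩ := exists_lt_of_lt_csSup hne htc
    have := mono hF h0 ht htu.le
    rw [hu.2] at this
    exact le_antisymm this (h0 t ht)
  set a : ℝ := 3 / 2 * c0 with ha
  have ha0 : 0 < a := by positivity
  have hFa : 0 < F a := habove a (by linarith)
  have hF2a : F a ≤ F (2 * a) := mono hF h0 ha0 (by linarith)
  have hF2a' : 0 < F (2 * a) := lt_of_lt_of_le hFa hF2a
  set x : ℝ := F a / (2 * F (2 * a)) with hx
  have hx0 : 0 < x := by positivity
  have hx1 : x ≤ 1 := by
    rw [hx, div_le_one (by positivity)]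
    linarith
  obtain ⟨m, hm⟩ := exists_nat_gt (2 * ((1 + SS (1 / 2)) / 2 + SS (1 / 2) * (1 / x - 1)))
  have hkey := key hF h0 ha0 hFa hx0 hx1 (by norm_num : (0:ℝ) < 1 / 2) (by norm_num) (3 * (m + 1))
    (m + 1) (by omega) (by
      have h1 : F (a * (((3 * (m + 1) : ℕ) : ℝ) - ((m + 1 : ℕ) : ℝ)) / (((m + 1 : ℕ) : ℝ) + 1)) ≤
          F (2 * a) := by
        apply mono hF h0
        · push_cast
          have : (0 : ℝ) < 3 * ((m : ℝ) + 1) - (m + 1) := by
            have : (0 : ℝ) ≤ m := Nat.cast_nonneg _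
            linarith
          positivity
        · rw [div_le_iff₀ (by positivity)]
          push_cast
          nlinarith
      have h2 : F (2 * a) * x = 1 / 2 * F a := by
        rw [hx]
        field_simp
      calc _ ≤ F (2 * a) * x := mul_le_mul_of_nonneg_right h1 hx0.le
        _ = _ := h2) (by
      intro _
      have h3 : F (a * ((m + 1 : ℕ) : ℝ) / (((3 * (m + 1) : ℕ) : ℝ) - ((m + 1 : ℕ) : ℝ) + 1)) = 0 := by
        have hm0 : (0 : ℝ) ≤ m := Nat.cast_nonneg _
        have hd : (0 : ℝ) < ((3 * (m + 1) : ℕ) : ℝ) - ((m + 1 : ℕ) : ℝ) + 1 := by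
          push_cast
          linarith
        apply hbelow
        · positivity
        · rw [div_lt_iff₀ hd]
          push_cast
          nlinarith
      rw [h3]
      positivity)
  push_cast at hkey
  linarith

theorem up {F : ℝ → ℝ} (hF : Preserves F) (h0 : ∀ t, 0 < t → 0 ≤ F t)
    (hp : ∀ t, 0 < t → 0 < F t) {a R : ℝ} (ha : 0 < a) (hR : 1 < R) :
    F a ^ 2 ≤ F (a * R) * F (a / R) := by
  by_contra hcon
  push Not at hcon
  have hR0 : 0 < R := by linarith
  set P := F (a * R) with hP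
  set M := F (a / R) with hM
  set K := F a with hK
  have hP0 : 0 < P := hp _ (by positivity)
  have hM0 : 0 < M := hp _ (by positivity)
  have hK0 : 0 < K := hp _ ha
  have hKP : K ≤ P := mono hF h0 ha (by nlinarith)
  have hMK : M ≤ K := mono hF h0 (by positivity) (by
    rw [div_le_iff₀ hR0]
    nlinarith)
  have hlt : M / K < K / P := by
    rw [div_lt_div_iff₀ hK0 hP0]
    nlinarith
  set x : ℝ := (M / K + K / P) / 2 with hx
  have hx0 : 0 < x := by positivity
  have hxl : M / K < x := by linarith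
  have hxu : x < K / P := by linarith
  have hx1 : x ≤ 1 := by
    have : K / P ≤ 1 := by
      rw [div_le_one hP0]
      exact hKP
    linarith
  have hxl' : M < x * K := by rwa [div_lt_iff₀ hK0] at hxl
  have hxu' : x * P < K := by rwa [lt_div_iff₀ hP0] at hxu
  set ρ : ℝ := max (P * x / K) (M / (K * x)) with hρ
  have hρ0 : 0 < ρ := lt_max_of_lt_left (by positivity)
  have hρ1 : ρ < 1 := by
    rw [hρ, max_lt_iff]
    constructor
    · rw [div_lt_one hK0]
      linarith
    · rw [div_lt_one (by positivity)]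
      linarith
  have hA : P * x ≤ ρ * K := by
    have := le_max_left (P * x / K) (M / (K * x))
    rw [← hρ, div_le_iff₀ hK0] at this
    exact this
  have hB : M ≤ ρ * (K * x) := by
    have := le_max_right (P * x / K) (M / (K * x))
    rw [← hρ, div_le_iff₀ (by positivity)] at this
    exact this
  set bd : ℝ := (1 + SS ρ) / 2 + SS ρ * (1 / x - 1) with hbd
  obtain ⟨m0, hm0⟩ := exists_nat_gt ((2 * bd + 1) / (R - 1))
  set m := m0 + 1 with hm
  have hm1 : (1 : ℝ) ≤ (m : ℝ) := by
    rw [hm]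
    push_cast
    have : (0 : ℝ) ≤ m0 := Nat.cast_nonneg _
    linarith
  have hmbig : 2 * bd + 1 < (m : ℝ) * (R - 1) := by
    rw [div_lt_iff₀ (by linarith)] at hm0
    rw [hm]
    push_cast
    nlinarith
  set n := ⌊(R + 1) * m⌋₊ with hn
  have hn1 : (n : ℝ) ≤ (R + 1) * m := Nat.floor_le (by positivity)
  have hn2 : (R + 1) * m < n + 1 := Nat.lt_floor_add_one _
  have hmn : m + 1 ≤ n := by
    have : 2 * m ≤ n := by
      rw [hn]
      apply Nat.le_floor
      push_cast
      nlinarith
    omega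
  have hmn' : (m : ℝ) + 1 ≤ n := by exact_mod_cast hmn
  have hkey := key hF h0 ha hK0 hx0 hx1 hρ0 hρ1 n m hmn (by
      have h1 : F (a * ((n : ℝ) - m) / (m + 1)) ≤ P := by
        apply mono hF h0
        · have : 0 < (n : ℝ) - m := by linarith
          positivity
        · rw [div_le_iff₀ (by positivity)]
          have h2 : (n : ℝ) - m ≤ R * m := by linarith
          have h3 : R * m ≤ R * (m + 1) := by nlinarith
          have := mul_le_mul_of_nonneg_left (h2.trans h3) ha.le
          linarith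
      calc _ ≤ P * x := mul_le_mul_of_nonneg_right h1 hx0.le
        _ ≤ _ := hA) (by
      intro _
      have h1 : F (a * m / ((n : ℝ) - m + 1)) ≤ M := by
        have hd : 0 < (n : ℝ) - m + 1 := by linarith
        apply mono hF h0
        · positivity
        · rw [div_le_div_iff₀ hd hR0]
          have h2 : R * m ≤ (n : ℝ) - m + 1 := by linarith
          have := mul_le_mul_of_nonneg_left h2 ha.le
          linarith
      exact h1.trans hB)
  linarith

theorem down {F : ℝ → ℝ} (hF : Preserves F) (h0 : ∀ t, 0 < t → 0 ≤ F t)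
    (hp : ∀ t, 0 < t → 0 < F t) {a R : ℝ} (ha : 0 < a) (hR : 1 < R) :
    F (a * R) * F (a / R) ≤ F a ^ 2 := by
  by_contra hcon
  push Not at hcon
  have hR0 : 0 < R := by linarith
  have hK0 : 0 < F a := hp _ ha
  have hPM : 0 < F (a * R) * F (a / R) := mul_pos (hp _ (by positivity)) (hp _ (by positivity))
  set K : ℝ := Real.sqrt (F (a * R) * F (a / R)) with hK
  have hKK : K ^ 2 = F (a * R) * F (a / R) := Real.sq_sqrt hPM.le
  have hKpos : 0 < K := Real.sqrt_pos.mpr hPM
  have hkK : F a < K := by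
    apply lt_of_pow_lt_pow_left₀ 2 hKpos.le
    rw [hKK]
    exact hcon
  have hbig : ∀ r, a < r → K ≤ F r := by
    intro r hr
    have hr0 : 0 < r := ha.trans hr
    have := T hF h0 (p := a * R) (q := r) (r := a / R) (by positivity) hr0 (by positivity) (by
      have : a * R * (a / R) = a * a := by field_simp
      rw [this]
      nlinarith)
    rw [← hKK] at this
    exact le_of_sq_le_sq this (h0 r hr0)
  -- sup of F over (0, a)
  set L : ℝ := sSup (F '' Set.Ioo 0 a) with hL
  have hbd : BddAbove (F '' Set.Ioo 0 a) := by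
    refine ⟨F a, ?_⟩
    rintro _ ⟨t, ht, rfl⟩
    exact mono hF h0 ht.1 ht.2.le
  have hne : (F '' Set.Ioo 0 a).Nonempty := ⟨F (a / 2), a / 2, ⟨by positivity, by linarith⟩, rfl⟩
  have hL0 : 0 < L := lt_of_lt_of_le (hp (a / 2) (by positivity))
    (le_csSup hbd ⟨a / 2, ⟨by positivity, by linarith⟩, rfl⟩)
  have hstep : L ≤ F a / K * L := by
    apply csSup_le hne
    rintro _ ⟨t, ⟨ht0, hta⟩, rfl⟩
    set q := (a + t) / 2 with hq
    have hq0 : 0 < q := by positivity
    have hqa : q < a := by rw [hq]; linarith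
    have hqq : a * t < q ^ 2 := by
      rw [hq]
      nlinarith [sq_pos_of_pos (by linarith : 0 < a - t)]
    set r := (a + q ^ 2 / t) / 2 with hr
    have hqt : a < q ^ 2 / t := by
      rw [lt_div_iff₀ ht0]
      exact hqq
    have hra : a < r := by rw [hr]; linarith
    have htr : t * r < q ^ 2 := by
      have : t * r = (a * t + q ^ 2) / 2 := by
        rw [hr]
        field_simp
      rw [this]
      linarith
    have h1 := T hF h0 ht0 hq0 (ha.trans hra) htr
    have h2 := hbig r hra
    have h3 : F q ≤ F a := mono hF h0 hq0 hqa.le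
    have h4 : F q ≤ L := le_csSup hbd ⟨q, ⟨hq0, hqa⟩, rfl⟩
    have h5 : F t * K ≤ F a * L := by
      calc F t * K ≤ F t * F r := mul_le_mul_of_nonneg_left h2 (h0 t ht0)
        _ ≤ F q ^ 2 := h1
        _ = F q * F q := by ring
        _ ≤ F a * L := mul_le_mul h3 h4 (h0 q hq0) hK0.le
    rw [div_mul_eq_mul_div, le_div_iff₀ hKpos]
    exact h5
  have : F a / K < 1 := by
    rw [div_lt_one hKpos]
    exact hkK
  nlinarith

theorem jensen {F : ℝ → ℝ} (hF : Preserves F) (h0 : ∀ t, 0 < t → 0 ≤ F t)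
    (hp : ∀ t, 0 < t → 0 < F t) {a b : ℝ} (ha : 0 < a) (hb : 0 < b) :
    F (Real.sqrt (a * b)) ^ 2 = F a * F b := by
  wlog hab : a ≤ b generalizing a b
  · rw [mul_comm a b, mul_comm (F a)]
    exact this hb ha (by linarith)
  rcases eq_or_lt_of_le hab with h | h
  · subst h
    rw [Real.sqrt_mul_self ha.le]
    ring
  · set g := Real.sqrt (a * b) with hg
    have hg0 : 0 < g := Real.sqrt_pos.mpr (by positivity)
    have hgg : g ^ 2 = a * b := Real.sq_sqrt (by positivity)
    set R := b / g with hR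
    have hgb : g < b := by
      apply lt_of_pow_lt_pow_left₀ 2 hb.le
      rw [hgg]
      nlinarith
    have hR1 : 1 < R := by
      rw [hR, lt_div_iff₀ hg0]
      linarith
    have e1 : g * R = b := by
      rw [hR]
      field_simp
    have e2 : g / R = a := by
      rw [hR, div_div_eq_mul_div]
      rw [div_eq_iff hb.ne']
      rw [← pow_two, hgg]
    have h1 := up hF h0 hp hg0 hR1
    have h2 := down hF h0 hp hg0 hR1
    rw [e1, e2] at h1 h2
    rw [mul_comm (F a)]
    exact le_antisymm h1 h2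

end Pool.Agent.R237.PR
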