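import Pool.Agent.R237.PR.Main

set_option autoImplicit false

namespace Pool.Agent.R237.PR

open Polynomial

/-- a monotone additive function is linear -/
theorem additive_mono {A : ℝ → ℝ} (hadd : ∀ x y, A (x + y) = A x + A y) (hm : Monotone A) (u : ℝ) :
    A u = A 1 * u := by
  set f : ℝ →+ ℝ := AddMonoidHom.mk' A hadd with hf
  have hfz : ∀ (k : ℤ), A k = A 1 * k := by
    intro k
    have := map_zsmul f k (1 : ℝ)
    simp only [zsmul_eq_mul, mul_one] at this
    have h2 : f (k : ℝ) = A k := rfl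
    have h3 : f 1 = A 1 := rfl
    rw [h2, h3] at this
    rw [this]
    ring
  have hfn : ∀ (n : ℕ) (x : ℝ), A (n * x) = n * A x := by
    intro n x
    have := map_nsmul f n x
    simp only [nsmul_eq_mul] at this
    exact this
  have hA1 : 0 ≤ A 1 := by
    have h1 := hm (zero_le_one' ℝ)
    have h2 := hfz 0
    simp at h2
    rw [h2] at h1
    exact h1
  have hb : ∀ n : ℕ, (n : ℝ) * |A u - A 1 * u| ≤ A 1 := by
    intro n
    have h1 := hfn n u
    have h2 := hm (Int.floor_le ((n : ℝ) * u))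
    have h3 := hm (Int.lt_floor_add_one ((n : ℝ) * u)).le
    have h4 := hfz ⌊(n : ℝ) * u⌋
    have h5 := hfz (⌊(n : ℝ) * u⌋ + 1)
    push_cast at h5
    rw [h4, h1] at h2
    rw [h5, h1] at h3
    have h6 := Int.floor_le ((n : ℝ) * u)
    have h7 := (Int.lt_floor_add_one ((n : ℝ) * u)).le
    have h8 := mul_le_mul_of_nonneg_left h6 hA1
    have h9 := mul_le_mul_of_nonneg_left h7 hA1
    have h10 : (n : ℝ) * |A u - A 1 * u| = |(n : ℝ) * A u - A 1 * ((n : ℝ) * u)| := by
      rw [← abs_of_nonneg (Nat.cast_nonneg n : (0 : ℝ) ≤ n), ← abs_mul,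
        abs_of_nonneg (Nat.cast_nonneg n : (0 : ℝ) ≤ n)]
      congr 1
      ring
    rw [h10, abs_le]
    constructor <;> linarith
  have hz : |A u - A 1 * u| = 0 := by
    by_contra hne
    have hpos : 0 < |A u - A 1 * u| := lt_of_le_of_ne (abs_nonneg _) (Ne.symm hne)
    obtain ⟨n, hn⟩ := exists_nat_gt (A 1 / |A u - A 1 * u|)
    rw [div_lt_iff₀ hpos] at hn
    linarith [hb n]
  have := abs_eq_zero.mp hz
  linarith

/-- a positive preserver is a power function on the positive half-line -/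
theorem power {F : ℝ → ℝ} (hF : Preserves F) (h0 : ∀ t, 0 < t → 0 ≤ F t)
    (hp : ∀ t, 0 < t → 0 < F t) : ∃ α : ℝ, ∀ t, 0 < t → F t = F 1 * t ^ α := by
  set φ : ℝ → ℝ := fun u => Real.log (F (Real.exp u)) with hφ
  have hJ : ∀ x y, φ x + φ y = 2 * φ ((x + y) / 2) := by
    intro x y
    have h1 := jensen hF h0 hp (Real.exp_pos x) (Real.exp_pos y)
    have h2 : Real.sqrt (Real.exp x * Real.exp y) = Real.exp ((x + y) / 2) := by
      rw [← Real.exp_add]
      rw [Real.sqrt_eq_iff_mul_self_eq (Real.exp_pos _).le (Real.exp_pos _).le, ← Real.exp_add]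
      congr 1
      ring
    rw [h2] at h1
    have h3 := congrArg Real.log h1
    rw [Real.log_pow, Real.log_mul (hp _ (Real.exp_pos _)).ne' (hp _ (Real.exp_pos _)).ne'] at h3
    push_cast at h3
    simp only [hφ]
    linarith
  have hmono : Monotone φ := by
    intro x y hxy
    apply Real.log_le_log (hp _ (Real.exp_pos _))
    exact mono hF h0 (Real.exp_pos _) (Real.exp_le_exp.mpr hxy)
  set A : ℝ → ℝ := fun u => φ u - φ 0 with hA
  have hadd : ∀ x y, A (x + y) = A x + A y := by
    intro x y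
    have h1 := hJ x y
    have h2 := hJ (x + y) 0
    rw [add_zero] at h2
    simp only [hA]
    linarith
  have hAm : Monotone A := fun x y hxy => sub_le_sub_right (hmono hxy) _
  refine ⟨A 1, fun t ht => ?_⟩
  have h1 := additive_mono hadd hAm (Real.log t)
  have h2 : φ (Real.log t) = Real.log (F t) := by
    simp only [hφ]
    rw [Real.exp_log ht]
  have h3 : φ 0 = Real.log (F 1) := by
    simp only [hφ]
    rw [Real.exp_zero]
  have h4 : Real.log (F t) = Real.log (F 1) + A 1 * Real.log t := by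
    have : A (Real.log t) = Real.log (F t) - Real.log (F 1) := by
      simp only [hA]
      rw [h2, h3]
    linarith
  rw [← Real.exp_log (hp t ht), h4, Real.exp_add, Real.exp_log (hp 1 one_pos),
    Real.rpow_def_of_pos ht, mul_comm (Real.log t)]

/-- the exponent is at least one -/
theorem one_le_exp {F : ℝ → ℝ} (hF : Preserves F) {c α : ℝ} (hc : 0 < c)
    (h : ∀ t, 0 < t → F t = c * t ^ α) : 1 ≤ α := by
  by_contra hα
  push Not at hα
  have hR := hF 2 (fun k => 1 * ((2 : ℕ).choose k : ℝ)) (by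
    intro k hk
    have : (0 : ℝ) < ((2 : ℕ).choose k : ℝ) := by exact_mod_cast Nat.choose_pos hk
    positivity) (Or.inr (rr_binom 2 one_pos))
  set w : ℝ := (2 : ℝ) ^ α / 2 with hw
  have hw0 : 0 < w := by positivity
  have hw1 : w < 1 := by
    rw [hw, div_lt_one (by norm_num)]
    calc (2 : ℝ) ^ α < (2 : ℝ) ^ (1 : ℝ) := Real.rpow_lt_rpow_of_exponent_lt (by norm_num) hα
      _ = 2 := by norm_num
  have f1 : F 1 = c := by rw [h 1 one_pos]; simp
  have f2 : F 2 = 2 * w * c := by
    rw [h 2 two_pos, hw]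
    ring
  have hne : poly 2 (fun k => F (1 * ((2 : ℕ).choose k : ℝ))) ≠ 0 := by
    apply poly_ne_zero (m := 0) (by omega)
    simp [f1, hc]
  have hz := hR.resolve_left hne
  set y : ℝ := Real.sqrt (1 - w ^ 2) with hy
  have hy0 : 0 < y := Real.sqrt_pos.mpr (by nlinarith)
  have hyy : y ^ 2 = 1 - w ^ 2 := Real.sq_sqrt (by nlinarith)
  have := hz (⟨-w, y⟩ : ℂ) (by
    rw [aeval_poly]
    simp only [Finset.sum_range_succ, Finset.sum_range_zero]
    norm_num [f1, f2]
    apply Complex.ext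
    · simp [pow_two]
      nlinarith
    · simp [pow_two]
      ring)
  simp at this
  linarith

/-- the quartic `(1+x)^4` gives a further restriction on the exponent -/
theorem quartic {F : ℝ → ℝ} (hF : Preserves F) {c α : ℝ} (hc : 0 < c)
    (h : ∀ t, 0 < t → F t = c * t ^ α) : 2 * (4 : ℝ) ^ α ≤ (6 : ℝ) ^ α + 2 := by
  by_contra hα
  push Not at hα
  have hR := hF 4 (fun k => 1 * ((4 : ℕ).choose k : ℝ)) (by
    intro k hk
    have : (0 : ℝ) < ((4 : ℕ).choose k : ℝ) := by exact_mod_cast Nat.choose_pos hk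
    positivity) (Or.inr (rr_binom 4 one_pos))
  set b : ℝ := (4 : ℝ) ^ α with hb
  set d : ℝ := (6 : ℝ) ^ α with hd
  have hb0 : 0 < b := by positivity
  have hd0 : 0 < d := by positivity
  have f1 : F 1 = c := by rw [h 1 one_pos]; simp
  have f4 : F 4 = c * b := by rw [h 4 (by norm_num)]
  have f6 : F 6 = c * d := by rw [h 6 (by norm_num)]
  have hne : poly 4 (fun k => F (1 * ((4 : ℕ).choose k : ℝ))) ≠ 0 := by
    apply poly_ne_zero (m := 0) (by omega)
    simp [f1, hc]
  have hz := hR.resolve_left hne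
  have hcont : ContinuousOn (fun u : ℝ => 4 * u ^ 2 + 2 * b * u + d - 2) (Set.Icc (-1) 1) := by
    fun_prop
  have hivt := intermediate_value_Ioo (by norm_num : (-1 : ℝ) ≤ 1) hcont
  have h0 : (0 : ℝ) ∈ Set.Ioo ((fun u : ℝ => 4 * u ^ 2 + 2 * b * u + d - 2) (-1))
      ((fun u : ℝ => 4 * u ^ 2 + 2 * b * u + d - 2) 1) := by
    constructor
    · simp only
      linarith
    · simp only
      linarith
  obtain ⟨u, ⟨hu1, hu2⟩, hu⟩ := hivt h0
  simp only at hu
  have huu : 0 < 1 - u ^ 2 := by nlinarith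
  set y : ℝ := Real.sqrt (1 - u ^ 2) with hy
  have hy0 : 0 < y := Real.sqrt_pos.mpr huu
  have hyy : y ^ 2 = 1 - u ^ 2 := Real.sq_sqrt huu.le
  set z : ℂ := ⟨u, y⟩ with hzdef
  have e1 : z ^ 2 = 2 * u * z - 1 := by
    apply Complex.ext
    · simp [pow_two, hzdef]
      nlinarith
    · simp [pow_two, hzdef]
      ring
  have hu' : (4 * (u : ℂ) ^ 2 + 2 * b * u + d - 2) = 0 := by exact_mod_cast hu
  have hc' : Nat.choose 4 2 = 6 := rfl
  have := hz z (by
    rw [aeval_poly]
    simp only [Finset.sum_range_succ, Finset.sum_range_zero]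
    norm_num [f1, f4, f6, hc']
    have e2 : z ^ 3 = z * z ^ 2 := by ring
    have e3 : z ^ 4 = z ^ 2 * z ^ 2 := by ring
    linear_combination (c * z ^ 2) * hu' + (c * (z ^ 2 + 2 * u * z + 1 + b * z)) * e1)
  simp [hzdef] at this
  linarith

end Pool.Agent.R237.PR
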