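import Pool.Agent.R237.PR.Tri

set_option autoImplicit false

namespace Pool.Agent.R237.PR

open Polynomial

theorem exists_tc {l : ℝ} (hl : 1 < l) : ∃ (m i : ℕ) (c : ℝ), 2 ≤ c ∧ i ≤ m ∧
    tc m c (i + 2) = tc m c i ∧ tc m c (i + 1) = l * tc m c i := by
  rcases le_or_gt 2 l with h2 | h2
  · refine ⟨0, 0, l, h2, le_rfl, ?_, ?_⟩
    · simp [tc]
    · simp [tc]
  · set μ : ℝ := 1 / (l - 1) with hμ
    have hl1 : 0 < l - 1 := by linarith
    have hμ1 : 1 < μ := by
      rw [hμ, lt_div_iff₀ hl1]
      linarith
    obtain ⟨j, hj⟩ : ∃ j : ℕ, ⌈μ⌉₊ = j + 2 := by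
      have : 1 < ⌈μ⌉₊ := by
        rw [Nat.lt_ceil]
        exact_mod_cast hμ1
      exact ⟨⌈μ⌉₊ - 2, by omega⟩
    have ha : μ ≤ (j : ℝ) + 2 := by
      have := Nat.le_ceil μ
      rw [hj] at this
      exact_mod_cast this
    have hb : (j : ℝ) + 1 < μ := by
      have := Nat.ceil_lt_add_one (by linarith : 0 ≤ μ)
      rw [hj] at this
      push_cast at this
      linarith
    have hμl : μ * (l - 1) = 1 := by
      rw [hμ]
      field_simp
    have ha' : (j : ℝ) + 3 ≤ l * (j + 2) := by
      nlinarith
    have hb' : l * ((j : ℝ) + 1) < j + 2 := by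
      nlinarith
    have hj0 : (0 : ℝ) ≤ j := Nat.cast_nonneg _
    set A : ℝ := ((2 * j + 2).choose (j + 1) : ℝ) with hA
    set B : ℝ := ((2 * j + 2).choose j : ℝ) with hB
    set B' : ℝ := ((2 * j + 2).choose (j + 2) : ℝ) with hB'
    set D : ℝ := (if 2 ≤ j + 1 then ((2 * j + 2).choose (j + 1 - 2) : ℝ) else 0) with hD
    set D' : ℝ := ((2 * j + 2).choose (j + 3) : ℝ) with hD'
    have e1 : A * (j + 1) = B * (j + 2) := by
      have := Nat.choose_succ_right_eq (2 * j + 2) j
      have h2 : 2 * j + 2 - j = j + 2 := by omega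
      rw [h2] at this
      rw [hA, hB]
      exact_mod_cast this
    have e2 : B' * (j + 2) = A * (j + 1) := by
      have := Nat.choose_succ_right_eq (2 * j + 2) (j + 1)
      have h2 : 2 * j + 2 - (j + 1) = j + 1 := by omega
      rw [h2] at this
      rw [hA, hB']
      exact_mod_cast this
    have e3 : D' * (j + 3) = B' * j := by
      have := Nat.choose_succ_right_eq (2 * j + 2) (j + 2)
      have h2 : 2 * j + 2 - (j + 2) = j := by omega
      rw [h2] at this
      rw [hD', hB']
      exact_mod_cast this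
    have e4 : B * j = D * (j + 3) := by
      rcases Nat.eq_zero_or_pos j with h | h
      · subst h
        simp [hD]
      · obtain ⟨k, rfl⟩ : ∃ k, j = k + 1 := ⟨j - 1, by omega⟩
        have := Nat.choose_succ_right_eq (2 * (k + 1) + 2) k
        have h2 : 2 * (k + 1) + 2 - k = k + 4 := by omega
        rw [h2] at this
        have h3 : k + 1 + 1 - 2 = k := by omega
        rw [hD, hB, h3, if_pos (by omega)]
        have h4 : (((2 * (k + 1) + 2).choose (k + 1) * (k + 1) : ℕ) : ℝ) =
          (((2 * (k + 1) + 2).choose k * (k + 4) : ℕ) : ℝ) := by rw [this]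
        push_cast at h4 ⊢
        rw [h4]
        ring
    have hApos : 0 < A := by
      rw [hA]
      exact_mod_cast Nat.choose_pos (by omega)
    have eB : B' = B := by
      have : B' * (j + 2) = B * (j + 2) := by rw [e2, e1]
      exact mul_right_cancel₀ (by positivity) this
    have eD : D' = D := by
      have : D' * (j + 3) = D * (j + 3) := by rw [e3, ← e4, eB]
      exact mul_right_cancel₀ (by positivity) this
    have hBpos : 0 < B := by
      have : 0 < B * (j + 2) := by rw [← e1]; positivity
      exact pos_of_mul_pos_left this (by positivity)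
    have hden : 0 < A - l * B := by
      have : 0 < (A - l * B) * (j + 2) := by
        have h5 : (A - l * B) * (j + 2) = A * ((j + 2) - l * (j + 1)) := by
          linear_combination l * e1
        rw [h5]
        apply mul_pos hApos
        linarith
      exact pos_of_mul_pos_left this (by positivity)
    set c : ℝ := (l * (A + D) - 2 * B) / (A - l * B) with hc
    have hcc : c * (A - l * B) = l * (A + D) - 2 * B := by
      rw [hc]
      field_simp
    have hc2 : 2 ≤ c := by
      rw [hc, le_div_iff₀ hden]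
      have h6 : 0 ≤ (l * (A + D) - 2 * B - 2 * (A - l * B)) * (j + 3) := by
        have h7 : (l * (A + D) - 2 * B - 2 * (A - l * B)) * (j + 3) * (j + 2) =
          (l * (j + 2) - (j + 3)) * (4 * j + 6) * A := by
          linear_combination (-l * (j + 2)) * e4 + (-3 * l * (j + 2) + 2 * (j + 3)) * e1
        have h8 : 0 ≤ (l * (A + D) - 2 * B - 2 * (A - l * B)) * (j + 3) * (j + 2) := by
          rw [h7]
          apply mul_nonneg (mul_nonneg _ _) hApos.le
          · linarith
          · positivity
        exact nonneg_of_mul_nonneg_left h8 (by positivity)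
      have h9 := nonneg_of_mul_nonneg_left h6 (by positivity : (0:ℝ) < (j:ℝ) + 3)
      linarith
    refine ⟨2 * j + 2, j + 1, c, hc2, by omega, ?_, ?_⟩
    · have t1 : tc (2 * j + 2) c (j + 1 + 2) = D' + c * B' + A := by
        rw [tc]
        have : j + 1 + 2 - 1 = j + 2 := by omega
        rw [this]
        have : j + 1 + 2 - 2 = j + 1 := by omega
        rw [this, if_pos (by omega), if_pos (by omega)]
      have t2 : tc (2 * j + 2) c (j + 1) = A + c * B + D := by
        rw [tc]
        have : j + 1 - 1 = j := by omega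
        rw [this, if_pos (by omega)]
      rw [t1, t2, eD, eB]
      ring
    · have t1 : tc (2 * j + 2) c (j + 1 + 1) = B' + c * A + B := by
        rw [tc]
        have : j + 1 + 1 - 1 = j + 1 := by omega
        rw [this]
        have : j + 1 + 1 - 2 = j := by omega
        rw [this, if_pos (by omega), if_pos (by omega)]
      have t2 : tc (2 * j + 2) c (j + 1) = A + c * B + D := by
        rw [tc]
        have : j + 1 - 1 = j := by omega
        rw [this, if_pos (by omega)]
      rw [t1, t2, eB]
      linear_combination hcc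

theorem T {F : ℝ → ℝ} (hF : Preserves F) (h0 : ∀ t, 0 < t → 0 ≤ F t) {p q r : ℝ} (hp : 0 < p)
    (hq : 0 < q) (hr : 0 < r) (h : p * r < q ^ 2) : F p * F r ≤ F q ^ 2 := by
  set y : ℝ := Real.sqrt (r / p) with hy
  have hy0 : 0 < y := Real.sqrt_pos.mpr (by positivity)
  have hyy : p * y ^ 2 = r := by
    rw [hy, Real.sq_sqrt (by positivity)]
    field_simp
  set l : ℝ := q / (p * y) with hl
  have hl1 : 1 < l := by
    rw [hl, lt_div_iff₀ (by positivity), one_mul]
    apply lt_of_pow_lt_pow_left₀ 2 hq.le
    calc (p * y) ^ 2 = p * (p * y ^ 2) := by ring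
      _ = p * r := by rw [hyy]
      _ < q ^ 2 := h
  obtain ⟨m, i, c, hc, him, e2, e1⟩ := exists_tc hl1
  have hN : 0 < tc m c i := tc_pos m hc i (by omega)
  set s : ℝ := p / (tc m c i * y ^ i) with hs
  have hs0 : 0 < s := by positivity
  have v0 : s * (tc m c i * y ^ i) = p := by
    rw [hs]
    field_simp
  have v1 : s * (tc m c (i + 1) * y ^ (i + 1)) = q := by
    rw [e1]
    have : s * (l * tc m c i * y ^ (i + 1)) = (s * (tc m c i * y ^ i)) * (l * y) := by
      rw [pow_succ]; ring
    rw [this, v0, hl]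
    field_simp
  have v2 : s * (tc m c (i + 2) * y ^ (i + 2)) = r := by
    rw [e2]
    have : s * (tc m c i * y ^ (i + 2)) = (s * (tc m c i * y ^ i)) * y ^ 2 := by
      rw [pow_add]; ring
    rw [this, v0, hyy]
  have hpos : ∀ k ≤ m + 2, 0 < s * (tc m c k * y ^ k) := by
    intro k hk
    have := tc_pos m hc k hk
    positivity
  have hR := hF (m + 2) (fun k => s * (tc m c k * y ^ k)) hpos (Or.inr (rr_tc m hc hs0 hy0))
  have hL := pf2_poly (m + 2) (fun k => F (s * (tc m c k * y ^ k)))
    (fun k hk => h0 _ (hpos k hk)) hR i (i + 1) (by omega) (by omega)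
  simp only [add_assoc] at hL
  norm_num at hL
  rw [v0, v1, v2] at hL
  nlinarith

theorem mono {F : ℝ → ℝ} (hF : Preserves F) (h0 : ∀ t, 0 < t → 0 ≤ F t) {p q : ℝ} (hp : 0 < p)
    (hpq : p ≤ q) : F p ≤ F q := by
  rcases eq_or_lt_of_le hpq with h | h
  · rw [h]
  · have hq : 0 < q := hp.trans h
    have := T hF h0 hp hq hp (by nlinarith)
    have h1 : F p ^ 2 ≤ F q ^ 2 := by nlinarith
    exact le_of_sq_le_sq h1 (h0 q hq)

end Pool.Agent.R237.PR
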