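import Pool.Agent.R237.PR.Fac
import Pool.Agent.R237.PR.Defs

set_option autoImplicit false

namespace Pool.Agent.R237.PR

open Polynomial

theorem coeff_poly (n : ℕ) (c : ℕ → ℝ) (k : ℕ) :
    (poly n c).coeff k = if k ≤ n then c k else 0 := by
  rw [poly, finset_sum_coeff]
  simp only [coeff_C_mul_X_pow]
  rw [Finset.sum_ite_eq]
  simp [Nat.lt_succ_iff]

theorem sum_S0 (N : ℕ) (c : ℕ → ℝ) (x : ℝ) :
    (∑ k ∈ Finset.range N, C (c k) * X ^ k : ℝ[X]).eval x = ∑ k ∈ Finset.range N, c k * x ^ k := by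
  simp [eval_finset_sum]

theorem sum_S1 (N : ℕ) (c : ℕ → ℝ) (x : ℝ) :
    x * (derivative (∑ k ∈ Finset.range N, C (c k) * X ^ k : ℝ[X])).eval x =
      ∑ k ∈ Finset.range N, (k : ℝ) * (c k * x ^ k) := by
  induction N with
  | zero => simp
  | succ N ih =>
    rw [Finset.sum_range_succ, Finset.sum_range_succ, derivative_add, eval_add, mul_add, ih]
    congr 1
    rw [derivative_C_mul_X_pow]
    cases N with
    | zero => simp
    | succ N =>
      simp [pow_succ]
      ring

theorem sum_S2 (N : ℕ) (c : ℕ → ℝ) (x : ℝ) :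
    x ^ 2 * (derivative (derivative (∑ k ∈ Finset.range N, C (c k) * X ^ k : ℝ[X]))).eval x +
      x * (derivative (∑ k ∈ Finset.range N, C (c k) * X ^ k : ℝ[X])).eval x =
      ∑ k ∈ Finset.range N, (k : ℝ) ^ 2 * (c k * x ^ k) := by
  induction N with
  | zero => simp
  | succ N ih =>
    rw [Finset.sum_range_succ, Finset.sum_range_succ, derivative_add, derivative_add, eval_add,
      eval_add, ← ih]
    have h : x ^ 2 * (derivative (derivative (C (c N) * X ^ N : ℝ[X]))).eval x +
        x * (derivative (C (c N) * X ^ N : ℝ[X])).eval x = (N : ℝ) ^ 2 * (c N * x ^ N) := by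
      rw [derivative_C_mul_X_pow, derivative_C_mul_X_pow]
      rcases N with _ | _ | N
      · simp
      · simp [mul_comm]
      · simp [pow_succ]
        ring
    rw [← h]
    ring

/-- the constant of the geometric bound -/
noncomputable def SS (ρ : ℝ) : ℝ := ∑' z : ℤ, (z : ℝ) ^ 2 * ρ ^ z.natAbs

theorem summable_SS {ρ : ℝ} (h0 : 0 < ρ) (h1 : ρ < 1) :
    Summable (fun z : ℤ => (z : ℝ) ^ 2 * ρ ^ z.natAbs) := by
  have hs : Summable (fun n : ℕ => (n : ℝ) ^ 2 * ρ ^ n) :=
    summable_pow_mul_geometric_of_norm_lt_one 2 (by rw [Real.norm_eq_abs, abs_of_pos h0]; exact h1)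
  apply Summable.of_nat_of_neg
  · simpa using hs
  · simpa using hs

theorem geom_bound {ρ : ℝ} (h0 : 0 < ρ) (h1 : ρ < 1) (n m : ℕ) :
    ∑ k ∈ Finset.range (n + 1), ((k : ℝ) - m) ^ 2 * ρ ^ ((k : ℤ) - m).natAbs ≤ SS ρ := by
  have hinj : Function.Injective (fun k : ℕ => (k : ℤ) - m) := by
    intro a b hab
    simpa using hab
  have h := (summable_SS h0 h1).sum_le_tsum ((Finset.range (n + 1)).map ⟨_, hinj⟩)
    (fun z _ => by positivity)
  rw [Finset.sum_map] at h
  simpa [SS] using h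

theorem SS_nonneg {ρ : ℝ} (h0 : 0 < ρ) : 0 ≤ SS ρ := tsum_nonneg fun z => by positivity

/-- The main inequality. -/
theorem main_ineq (n m : ℕ) (c : ℕ → ℝ) (hc : ∀ k, k ≤ n → 0 ≤ c k)
    (hpal : ∀ k, k ≤ n → c (n - k) = c k)
    (hz : ∀ z : ℂ, aeval z (poly n c) = 0 → z.im = 0) {x ρ : ℝ} (hx : 0 < x) (hx1 : x ≤ 1)
    (h0 : 0 < ρ) (h1 : ρ < 1) (hm : m ≤ n) (hcm : 0 < c m)
    (hw : ∀ k, k ≤ n → c k * x ^ k ≤ ρ ^ ((k : ℤ) - m).natAbs * (c m * x ^ m)) :
    (n : ℝ) / 2 - m ≤ (1 + SS ρ) / 2 + SS ρ * (1 / x - 1) := by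
  have hP0 : poly n c ≠ 0 := by
    intro h
    have := coeff_poly n c m
    rw [h, coeff_zero, if_pos hm] at this
    linarith
  have hcoef : ∀ k, 0 ≤ (poly n c).coeff k := by
    intro k
    rw [coeff_poly]
    split_ifs with h
    · exact hc k h
    · exact le_rfl
  have hl : 0 < (poly n c).leadingCoeff :=
    lt_of_le_of_ne (hcoef _) (Ne.symm (leadingCoeff_ne_zero.mpr hP0))
  have hS0 : ∀ y : ℝ, 0 < y → 0 < ∑ k ∈ Finset.range (n + 1), c k * y ^ k := by
    intro y hy
    apply Finset.sum_pos' 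
    · intro k hk
      exact mul_nonneg (hc k (by simpa [Nat.lt_succ_iff] using hk)) (by positivity)
    · exact ⟨m, by simpa [Nat.lt_succ_iff] using hm, by positivity⟩
  obtain ⟨s, hs⟩ := fac _ (poly n c) rfl hP0 hz
  change poly n c = C (poly n c).leadingCoeff * Pr s at hs
  set l := (poly n c).leadingCoeff with hldef
  have hsr : ∀ r ∈ s, 0 ≤ r := by
    intro r hr
    by_contra hneg
    push Not at hneg
    have h2 : (Pr s).eval (-r) = 0 := by
      rw [Pr, eval_list_prod]
      apply List.prod_eq_zero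
      rw [List.mem_map]
      exact ⟨X + C r, List.mem_map.mpr ⟨r, hr, rfl⟩, by simp⟩
    have h3 : (poly n c).eval (-r) = 0 := by
      rw [hs, eval_mul, h2, mul_zero]
    rw [poly, sum_S0] at h3
    have := hS0 (-r) (by linarith)
    linarith
  have ht := tilt s hsr hx hx1
  have e0 : ∀ y : ℝ, l * (Pr s).eval y = ∑ k ∈ Finset.range (n + 1), c k * y ^ k := by
    intro y
    rw [← sum_S0, ← poly, hs, eval_mul, eval_C]
  have e1 : ∀ y : ℝ, l * (y * (derivative (Pr s)).eval y) =
      ∑ k ∈ Finset.range (n + 1), (k : ℝ) * (c k * y ^ k) := by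
    intro y
    rw [← sum_S1, ← poly, hs, derivative_C_mul, eval_mul, eval_C]
    ring
  have e2 : ∀ y : ℝ, l * (y ^ 2 * (derivative (derivative (Pr s))).eval y +
      y * (derivative (Pr s)).eval y) =
      ∑ k ∈ Finset.range (n + 1), (k : ℝ) ^ 2 * (c k * y ^ k) := by
    intro y
    rw [← sum_S2, ← poly, hs, derivative_C_mul, derivative_C_mul, eval_mul, eval_mul, eval_C]
    ring
  have hp1 := eval_Pr_pos s hsr (x := 1) one_pos
  have hpx := eval_Pr_pos s hsr hx
  set W := ∑ k ∈ Finset.range (n + 1), c k * x ^ k with hW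
  set W1 := ∑ k ∈ Finset.range (n + 1), (k : ℝ) * (c k * x ^ k) with hW1
  set W2 := ∑ k ∈ Finset.range (n + 1), (k : ℝ) ^ 2 * (c k * x ^ k) with hW2
  have hWpos : 0 < W := hS0 x hx
  have r1 : x * (derivative (Pr s)).eval x / (Pr s).eval x = W1 / W := by
    rw [hW1, hW, ← e1, ← e0, mul_div_mul_left _ _ hl.ne']
  have r2 : (x ^ 2 * (derivative (derivative (Pr s))).eval x + x * (derivative (Pr s)).eval x) /
      (Pr s).eval x = W2 / W := by
    rw [hW2, hW, ← e2, ← e0, mul_div_mul_left _ _ hl.ne']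
  have r3 : (derivative (Pr s)).eval 1 / (Pr s).eval 1 = n / 2 := by
    have f1 := e1 1
    have f0 := e0 1
    simp only [one_mul, one_pow, mul_one] at f1 f0
    have f2 : ∑ k ∈ Finset.range (n + 1), (k : ℝ) * c k =
        ∑ k ∈ Finset.range (n + 1), ((n : ℝ) - k) * c k := by
      rw [← Finset.sum_range_reflect]
      apply Finset.sum_congr rfl
      intro k hk
      have hk' : k ≤ n := by simpa [Nat.lt_succ_iff] using hk
      have : n + 1 - 1 - k = n - k := by omega
      rw [this, hpal k hk', Nat.cast_sub hk']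
    have f3 : 2 * ∑ k ∈ Finset.range (n + 1), (k : ℝ) * c k =
        n * ∑ k ∈ Finset.range (n + 1), c k := by
      rw [two_mul]
      nth_rw 2 [f2]
      rw [← Finset.sum_add_distrib, Finset.mul_sum]
      apply Finset.sum_congr rfl
      intro k _
      ring
    rw [← f1, ← f0] at f3
    have f4 : 2 * (derivative (Pr s)).eval 1 = n * (Pr s).eval 1 := by
      have : l * (2 * (derivative (Pr s)).eval 1) = l * (n * (Pr s).eval 1) := by linarith
      exact mul_left_cancel₀ hl.ne' this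
    rw [div_eq_div_iff hp1.ne' two_ne_zero]
    linarith
  rw [r1, r2, r3] at ht
  -- the second moment about m
  have hQ : ∑ k ∈ Finset.range (n + 1), ((k : ℝ) - m) ^ 2 * (c k * x ^ k) ≤ SS ρ * W := by
    have hle : ∀ k ∈ Finset.range (n + 1), ((k : ℝ) - m) ^ 2 * (c k * x ^ k) ≤
        ((k : ℝ) - m) ^ 2 * ρ ^ ((k : ℤ) - m).natAbs * (c m * x ^ m) := by
      intro k hk
      have hk' : k ≤ n := by simpa [Nat.lt_succ_iff] using hk
      rw [mul_assoc]
      exact mul_le_mul_of_nonneg_left (hw k hk') (sq_nonneg _)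
    have h2 := Finset.sum_le_sum hle
    rw [← Finset.sum_mul] at h2
    have h3 : c m * x ^ m ≤ W := by
      rw [hW]
      apply Finset.single_le_sum (f := fun k => c k * x ^ k)
      · intro k hk
        exact mul_nonneg (hc k (by simpa [Nat.lt_succ_iff] using hk)) (by positivity)
      · simpa [Nat.lt_succ_iff] using hm
    have h4 := geom_bound h0 h1 n m
    have h5 : 0 < c m * x ^ m := by positivity
    calc _ ≤ _ := h2
      _ ≤ SS ρ * (c m * x ^ m) := mul_le_mul_of_nonneg_right h4 h5.le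
      _ ≤ SS ρ * W := mul_le_mul_of_nonneg_left h3 (SS_nonneg h0)
  have hexp : ∑ k ∈ Finset.range (n + 1), ((k : ℝ) - m) ^ 2 * (c k * x ^ k) =
      W2 - 2 * m * W1 + m ^ 2 * W := by
    rw [hW, hW1, hW2, Finset.mul_sum, Finset.mul_sum, ← Finset.sum_sub_distrib,
      ← Finset.sum_add_distrib]
    apply Finset.sum_congr rfl
    intro k _
    ring
  rw [hexp] at hQ
  set μ := W1 / W with hμ
  have g1 : W2 / W - 2 * m * μ + m ^ 2 ≤ SS ρ := by
    have : (W2 - 2 * m * W1 + m ^ 2 * W) / W ≤ SS ρ := by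
      rw [div_le_iff₀ hWpos]
      exact hQ
    calc W2 / W - 2 * m * μ + m ^ 2 = (W2 - 2 * m * W1 + m ^ 2 * W) / W := by
          rw [hμ]; field_simp
      _ ≤ SS ρ := this
  have g2 : W2 / W - μ ^ 2 ≤ SS ρ := by nlinarith [sq_nonneg (μ - m)]
  have g3 : μ - m ≤ (1 + SS ρ) / 2 := by
    -- variance is nonnegative
    have g4 : μ ^ 2 ≤ W2 / W := by
      have hcs : W1 ^ 2 ≤ W2 * W := by
        have := Finset.sum_mul_sq_le_sq_mul_sq (Finset.range (n + 1))
          (fun k => (k : ℝ) * Real.sqrt (c k * x ^ k)) (fun k => Real.sqrt (c k * x ^ k))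
        have a1 : ∑ k ∈ Finset.range (n + 1), (k : ℝ) * Real.sqrt (c k * x ^ k) *
            Real.sqrt (c k * x ^ k) = W1 := by
          apply Finset.sum_congr rfl
          intro k hk
          have hk0 : 0 ≤ c k * x ^ k :=
            mul_nonneg (hc k (by simpa [Nat.lt_succ_iff] using hk)) (by positivity)
          rw [mul_assoc, Real.mul_self_sqrt hk0]
        have a2 : ∑ k ∈ Finset.range (n + 1), ((k : ℝ) * Real.sqrt (c k * x ^ k)) ^ 2 = W2 := by
          apply Finset.sum_congr rfl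
          intro k hk
          have hk0 : 0 ≤ c k * x ^ k :=
            mul_nonneg (hc k (by simpa [Nat.lt_succ_iff] using hk)) (by positivity)
          rw [mul_pow, Real.sq_sqrt hk0]
        have a3 : ∑ k ∈ Finset.range (n + 1), (Real.sqrt (c k * x ^ k)) ^ 2 = W := by
          apply Finset.sum_congr rfl
          intro k hk
          have hk0 : 0 ≤ c k * x ^ k :=
            mul_nonneg (hc k (by simpa [Nat.lt_succ_iff] using hk)) (by positivity)
          rw [Real.sq_sqrt hk0]
        rw [a1, a2, a3] at this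
        exact this
      rw [hμ, div_pow, div_le_div_iff₀ (by positivity) hWpos]
      nlinarith
    nlinarith [sq_nonneg (μ - m - 1)]
  have hx2 : 0 ≤ 1 / x - 1 := by
    rw [sub_nonneg, le_div_iff₀ hx]
    linarith
  have g5 := mul_le_mul_of_nonneg_right g2 hx2
  linarith

end Pool.Agent.R237.PR
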