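import Pool.Agent.R237.PR.App

set_option autoImplicit false

namespace Pool.Agent.R237.PR

open Polynomial

/-- roots of `1 + c w + w²` are real for `c ≥ 2` -/
theorem quad_real {c : ℝ} (hc : 2 ≤ c) (w : ℂ) (hw : 1 + c * w + w ^ 2 = 0) : w.im = 0 := by
  have h1 := congrArg Complex.re hw
  have h2 := congrArg Complex.im hw
  simp [pow_two] at h1 h2
  by_contra him
  have h3 : c + 2 * w.re = 0 := by
    have : w.im * (c + 2 * w.re) = 0 := by linarith
    exact (mul_eq_zero.mp this).resolve_left him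
  have h4 : 0 < w.im * w.im := mul_self_pos.mpr him
  have h5 : w.re = - c / 2 := by linarith
  rw [h5] at h1
  nlinarith

/-- The polynomial `(1 + cX + X²)(1+X)^m`, coefficients. -/
noncomputable def tc (m : ℕ) (c : ℝ) (k : ℕ) : ℝ :=
  (m.choose k : ℝ) + c * (if 1 ≤ k then (m.choose (k - 1) : ℝ) else 0) +
    (if 2 ≤ k then (m.choose (k - 2) : ℝ) else 0)

theorem tc_sum (m : ℕ) (c : ℝ) (w : ℂ) :
    ∑ k ∈ Finset.range (m + 2 + 1), (tc m c k : ℂ) * w ^ k =
      (1 + c * w + w ^ 2) * (w + 1) ^ m := by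
  have b : (w + 1) ^ m = ∑ k ∈ Finset.range (m + 1), (m.choose k : ℂ) * w ^ k := by
    rw [add_pow]
    apply Finset.sum_congr rfl
    intro k _
    simp
    ring
  have s0 : ∑ k ∈ Finset.range (m + 2 + 1), (m.choose k : ℂ) * w ^ k = (w + 1) ^ m := by
    rw [b, Finset.sum_range_succ, Finset.sum_range_succ]
    have h1 : m.choose (m + 1) = 0 := Nat.choose_eq_zero_of_lt (by omega)
    have h2 : m.choose (m + 2) = 0 := Nat.choose_eq_zero_of_lt (by omega)
    rw [h1, h2]
    simp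
  have s1 : ∑ k ∈ Finset.range (m + 2 + 1), ((if 1 ≤ k then (m.choose (k - 1) : ℝ) else 0 : ℝ) : ℂ) *
      w ^ k = w * (w + 1) ^ m := by
    rw [Finset.sum_range_succ', b, Finset.sum_range_succ, Finset.mul_sum]
    have h1 : m.choose (m + 1) = 0 := Nat.choose_eq_zero_of_lt (by omega)
    simp [h1]
    apply Finset.sum_congr rfl
    intro k _
    rw [pow_succ]
    ring
  have s2 : ∑ k ∈ Finset.range (m + 2 + 1), ((if 2 ≤ k then (m.choose (k - 2) : ℝ) else 0 : ℝ) : ℂ) *
      w ^ k = w ^ 2 * (w + 1) ^ m := by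
    rw [Finset.sum_range_succ', Finset.sum_range_succ', b, Finset.mul_sum]
    simp
    apply Finset.sum_congr rfl
    intro k _
    rw [pow_succ, pow_succ]
    ring
  calc ∑ k ∈ Finset.range (m + 2 + 1), (tc m c k : ℂ) * w ^ k
      = ∑ k ∈ Finset.range (m + 2 + 1), (m.choose k : ℂ) * w ^ k +
        c * ∑ k ∈ Finset.range (m + 2 + 1), ((if 1 ≤ k then (m.choose (k - 1) : ℝ) else 0 : ℝ) : ℂ) *
          w ^ k +
        ∑ k ∈ Finset.range (m + 2 + 1), ((if 2 ≤ k then (m.choose (k - 2) : ℝ) else 0 : ℝ) : ℂ) *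
          w ^ k := by
        rw [Finset.mul_sum, ← Finset.sum_add_distrib, ← Finset.sum_add_distrib]
        apply Finset.sum_congr rfl
        intro k _
        rw [tc]
        push_cast
        ring
    _ = _ := by
        rw [s0, s1, s2]
        ring

theorem tc_pos (m : ℕ) {c : ℝ} (hc : 2 ≤ c) (k : ℕ) (hk : k ≤ m + 2) : 0 < tc m c k := by
  rw [tc]
  have h0 : (0 : ℝ) ≤ (m.choose k : ℝ) := Nat.cast_nonneg _
  rcases k with _ | _ | k
  · simp
  · simp
    have : (0 : ℝ) ≤ (m : ℝ) := Nat.cast_nonneg _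
    linarith
  · have h1 : 0 < m.choose k := Nat.choose_pos (by omega)
    have h2 : (0 : ℝ) < (m.choose k : ℝ) := by exact_mod_cast h1
    have h3 : (0 : ℝ) ≤ (m.choose (k + 1) : ℝ) := Nat.cast_nonneg _
    simp
    nlinarith [mul_nonneg (by linarith : (0:ℝ) ≤ c) h3]

theorem rr_tc (m : ℕ) {c s y : ℝ} (hc : 2 ≤ c) (hs : 0 < s) (hy : 0 < y) :
    AllZerosReal (poly (m + 2) (fun k => s * (tc m c k * y ^ k))) := by
  intro z hz
  rw [aeval_poly] at hz
  have h : ∑ k ∈ Finset.range (m + 2 + 1), ((s * (tc m c k * y ^ k) : ℝ) : ℂ) * z ^ k =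
      (s : ℂ) * ((1 + c * (y * z) + (y * z) ^ 2) * (y * z + 1) ^ m) := by
    rw [← tc_sum, Finset.mul_sum]
    apply Finset.sum_congr rfl
    intro k _
    push_cast
    rw [mul_pow]
    ring
  rw [h] at hz
  have hs' : (s : ℂ) ≠ 0 := by exact_mod_cast hs.ne'
  have h1 := (mul_eq_zero.mp hz).resolve_left hs'
  have him : ((y : ℂ) * z).im = 0 := by
    rcases mul_eq_zero.mp h1 with h2 | h2
    · exact quad_real hc _ h2
    · have h3 : (y : ℂ) * z + 1 = 0 := by
        by_contra hne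
        exact pow_ne_zero m hne h2
      have h4 : (y : ℂ) * z = -1 := by linear_combination h3
      rw [h4]
      simp
  have h5 : y * z.im = 0 := by
    rw [Complex.im_ofReal_mul] at him
    exact him
  exact (mul_eq_zero.mp h5).resolve_left hy.ne'

end Pool.Agent.R237.PR
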